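import Pool.Agent.H.MP_b5a980_ag.Sx5

set_option autoImplicit false
set_option linter.style.longLine false

/-!
MP_b5a980_ag: the local de Rham homology and cohomology spectral sequences and the numbers
`rho_(p,q)` of a complete local ring of equal characteristic zero do not depend on the coefficient
field.

`σ, σ' : κ → A` are ring sections of the residue map of the local `ℚ`-algebra `A` (two coefficient
fields, both identified with the residue field `κ`). `π : κ[[x_1..x_n]] → A` is any surjection which
restricts to `σ` on constants, `f` any finite system of nonzero generators of its kernel.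
Then there are a surjection `π' : κ[[x_1..x_n]] → A` which restricts to `σ'` on constants and
nonzero generators `f'` of its kernel such that the homology spectral sequences are isomorphic from
`E_2` on with abutments, the cohomology spectral sequences are isomorphic from `E_2` on with
abutments, and all `rho_(p,q)` agree. The definitions are in the file Sx0.
-/

namespace Pool.Agent.Results.MP_b5a980_ag.CoefficientFieldIndependence

universe u

open MvPowerSeries

theorem result {A : Type u} [CommRing A] [IsLocalRing A] [Algebra ℚ A]
    (σ σ' : IsLocalRing.ResidueField A →+* A)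
    (hσ : ∀ x, IsLocalRing.residue A (σ x) = x) (hσ' : ∀ x, IsLocalRing.residue A (σ' x) = x)
    {n r : ℕ} (π : MvPowerSeries (Fin n) (IsLocalRing.ResidueField A) →+* A)
    (hπ : Function.Surjective π) (hπσ : ∀ c, π (C c) = σ c)
    (f : Fin r → MvPowerSeries (Fin n) (IsLocalRing.ResidueField A)) (hf0 : ∀ s, f s ≠ 0)
    (hf : Ideal.span (Set.range f) = RingHom.ker π) :
    ∃ (π' : MvPowerSeries (Fin n) (IsLocalRing.ResidueField A) →+* A)
      (f' : Fin r → MvPowerSeries (Fin n) (IsLocalRing.ResidueField A)),
      Function.Surjective π' ∧ (∀ c, π' (C c) = σ' c) ∧ (∀ s, f' s ≠ 0) ∧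
      Ideal.span (Set.range f') = RingHom.ker π' ∧
      Nonempty (B5s.SSI (B5s.homCx f) (B5s.homCx f')) ∧
      Nonempty (B5s.SSI (B5s.cohCx (RingHom.ker π)) (B5s.cohCx (RingHom.ker π'))) ∧
      ∀ p q : ℤ, B5s.rho f p q = B5s.rho f' p q :=
  B5s.plain_result σ σ' hσ hσ' π hπ hπσ f hf0 hf

end Pool.Agent.Results.MP_b5a980_ag.CoefficientFieldIndependence
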